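import Pool.Agent.helper33.SF.Spec

/-!
# Project SF (MP_37e5fa_nt), row POW
-/

set_option autoImplicit false

open Finset

namespace Pool.Agent.SF

/-- row POW -/
theorem POW : POW_stmt := by
  intro d a n
  have h := a.prop
  rw [pow_succ, pow_succ, Pell.Solution₁.x_mul, Pell.Solution₁.x_mul, Pell.Solution₁.y_mul]
  linear_combination -(a ^ n).x * h

end Pool.Agent.SF
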